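import Pool.Agent.Work.MP_dd6b33_gt.Main

/-!
Every embedded regular shrinker in the plane has at most five unbounded halflines.
-/

namespace Pool.Agent.Results.MP_dd6b33_gt.AtMostFive

open Pool.Agent.Work.MP_dd6b33_gt

theorem result {ι : Type} [Finite ι] (S : RegularShrinker (EuclideanSpace ℝ (Fin 2)) ι) :
    {i | S.unb i = true}.ncard ≤ 5 :=
  at_most_five S

end Pool.Agent.Results.MP_dd6b33_gt.AtMostFive
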